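import Mathlib

set_option autoImplicit false

namespace Pool.Agent.Lib.MP_c17089_co

/-- `0` is not a convex combination of `a`, `b`, `c` -/
def NZ (a b c : ℂ) : Prop :=
  ∀ α β γ : ℝ, 0 ≤ α → 0 ≤ β → 0 ≤ γ → α + β + γ = 1 → (α * a + β * b + γ * c : ℂ) ≠ 0

theorem NZ.a_ne {a b c : ℂ} (h : NZ a b c) : a ≠ 0 := by
  have := h 1 0 0 (by norm_num) le_rfl le_rfl (by norm_num)
  simpa using this

/-- separation from the origin -/
theorem NZ.exists_dir {a b c : ℂ} (h : NZ a b c) :
    ∃ v : ℂ, 0 < (a * v).re ∧ 0 < (b * v).re ∧ 0 < (c * v).re := by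
  have h0 : (0 : ℂ) ∉ convexHull ℝ ({a, b, c} : Set ℂ) := by
    intro hmem
    rw [convexHull_insert (by simp), convexHull_pair] at hmem
    simp only [convexJoin_singleton_left, Set.mem_iUnion, exists_prop] at hmem
    obtain ⟨z, hz, h0⟩ := hmem
    obtain ⟨s, t, hs, ht, hst, rfl⟩ := hz
    obtain ⟨s', t', hs', ht', hst', h0⟩ := h0
    refine h s' (t' * s) (t' * t) hs' (by positivity) (by positivity) ?_ ?_
    · rw [add_assoc, ← mul_add, hst, mul_one, hst']
    · rw [← h0]
      simp only [Complex.real_smul]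
      push_cast
      ring
  have hcl : IsClosed (convexHull ℝ ({a, b, c} : Set ℂ)) :=
    Set.Finite.isClosed_convexHull ℝ (Set.toFinite _)
  obtain ⟨f, u, hf0, hf⟩ := geometric_hahn_banach_point_closed (convex_convexHull ℝ _) hcl h0
  rw [map_zero] at hf0
  have hrep : ∀ z : ℂ, f z = (z * (f 1 - f Complex.I * Complex.I)).re := by
    intro z
    have hz : z = z.re • (1 : ℂ) + z.im • Complex.I := by
      simp [Complex.re_add_im]
    conv_lhs => rw [hz, map_add, map_smul, map_smul]
    simp [Complex.mul_re]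
  refine ⟨f 1 - f Complex.I * Complex.I, ?_, ?_, ?_⟩
  · rw [← hrep]
    exact hf0.trans (hf a (subset_convexHull ℝ _ (by simp)))
  · rw [← hrep]
    exact hf0.trans (hf b (subset_convexHull ℝ _ (by simp)))
  · rw [← hrep]
    exact hf0.trans (hf c (subset_convexHull ℝ _ (by simp)))

theorem arg_div_of_re_pos {x y : ℂ} (hx : 0 < x.re) (hy : 0 < y.re) :
    Complex.arg (x / y) = Complex.arg x - Complex.arg y := by
  have hx0 : x ≠ 0 := by rintro rfl; simp at hx
  have hy0 : y ≠ 0 := by rintro rfl; simp at hy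
  have h1 := Complex.abs_arg_lt_pi_div_two_iff.mpr (Or.inl hx)
  have h2 := Complex.abs_arg_lt_pi_div_two_iff.mpr (Or.inl hy)
  rw [abs_lt] at h1 h2
  have hpi := Real.pi_pos
  have hinv : Complex.arg y⁻¹ = - Complex.arg y := by
    rw [Complex.arg_inv, if_neg]
    intro h
    linarith [h2.2]
  rw [div_eq_mul_inv, (Complex.arg_mul_eq_add_arg_iff hx0 (inv_ne_zero hy0)).mpr, hinv]
  · ring
  · rw [hinv]
    constructor <;> linarith [h1.1, h1.2, h2.1, h2.2]

theorem NZ.cocycle {a b c : ℂ} (h : NZ a b c) :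
    Complex.arg (b / a) + Complex.arg (c / b) = Complex.arg (c / a) := by
  obtain ⟨v, ha, hb, hc⟩ := h.exists_dir
  have hv : v ≠ 0 := by rintro rfl; simp at ha
  have e : ∀ x y : ℂ, x / y = (x * v) / (y * v) := fun x y => by
    rw [mul_div_mul_right _ _ hv]
  rw [e b a, e c b, e c a, arg_div_of_re_pos hb ha, arg_div_of_re_pos hc hb,
    arg_div_of_re_pos hc ha]
  ring

/-- discrete Borsuk–Ulam on a grid of the hemisphere -/
theorem winding (w : ℕ → ℕ → ℂ) (m n : ℕ) (hm : 0 < m)
    (hper : ∀ i j, w i (j + 2 * n) = w i j) (hodd : ∀ j, w 0 (j + n) = - w 0 j)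
    (hpole : ∀ j, w m j = w m 0)
    (h1 : ∀ i j, i < m → NZ (w i j) (w i (j + 1)) (w (i + 1) (j + 1)))
    (h2 : ∀ i j, i < m → NZ (w i j) (w (i + 1) j) (w (i + 1) (j + 1))) : False := by
  set A : ℕ → ℕ → ℝ := fun i j => Complex.arg (w i (j + 1) / w i j) with hA
  set V : ℕ → ℕ → ℝ := fun i j => Complex.arg (w (i + 1) j / w i j) with hV
  have cell : ∀ i j, i < m → A i j = A (i + 1) j - (V i (j + 1) - V i j) := by
    intro i j hi
    have e1 := (h1 i j hi).cocycle
    have e2 := (h2 i j hi).cocycle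
    have e1' : A i j + V i (j + 1) = Complex.arg (w (i + 1) (j + 1) / w i j) := e1
    have e2' : V i j + A (i + 1) j = Complex.arg (w (i + 1) (j + 1) / w i j) := e2
    linarith
  have row : ∀ i, i < m → ∑ j ∈ Finset.range (2 * n), A i j = ∑ j ∈ Finset.range (2 * n), A (i + 1) j := by
    intro i hi
    have : ∑ j ∈ Finset.range (2 * n), A i j =
        ∑ j ∈ Finset.range (2 * n), (A (i + 1) j - (V i (j + 1) - V i j)) :=
      Finset.sum_congr rfl fun j _ => cell i j hi
    rw [this, Finset.sum_sub_distrib, Finset.sum_range_sub]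
    have hV0 : V i (2 * n) = V i 0 := by
      have e1 := hper i 0
      have e2 := hper (i + 1) 0
      rw [zero_add] at e1 e2
      simp only [hV, e1, e2]
    rw [hV0, sub_self, sub_zero]
  have rows : ∀ i, i ≤ m → ∑ j ∈ Finset.range (2 * n), A 0 j = ∑ j ∈ Finset.range (2 * n), A i j := by
    intro i
    induction i with
    | zero => intro _; rfl
    | succ i ih => intro hi; rw [ih (by omega), row i (by omega)]
  have hm0 : ∑ j ∈ Finset.range (2 * n), A m j = 0 := by
    apply Finset.sum_eq_zero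
    intro j _
    simp only [hA]
    rw [hpole (j + 1), hpole j]
    by_cases h : w m 0 = 0
    · simp [h]
    · rw [div_self h, Complex.arg_one]
  have h00 : ∑ j ∈ Finset.range (2 * n), A 0 j = 0 := (rows m le_rfl).trans hm0
  have hne : ∀ j, w 0 j ≠ 0 := fun j => (h1 0 j hm).a_ne
  have hhalf : ∑ j ∈ Finset.range n, A 0 j = 0 := by
    rw [two_mul, Finset.sum_range_add] at h00
    have : ∑ x ∈ Finset.range n, A 0 (n + x) = ∑ x ∈ Finset.range n, A 0 x := by
      apply Finset.sum_congr rfl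
      intro j _
      simp only [hA]
      have e1 : n + j + 1 = (j + 1) + n := by ring
      have e2 : n + j = j + n := by ring
      rw [e1, e2, hodd, hodd, neg_div_neg_eq]
    rw [this] at h00
    linarith
  have hprod' : ∀ k, ∏ j ∈ Finset.range k, (w 0 (j + 1) / w 0 j) = w 0 k / w 0 0 := by
    intro k
    induction k with
    | zero => simp [hne 0]
    | succ k ih =>
      rw [Finset.prod_range_succ, ih]
      have := hne k
      have := hne 0
      field_simp
  have hprod : ∏ j ∈ Finset.range n, (w 0 (j + 1) / w 0 j) = -1 := by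
    rw [hprod']
    have := hodd 0
    rw [zero_add] at this
    rw [this, neg_div, div_self (hne 0)]
  have hprod2 : ∏ j ∈ Finset.range n, (w 0 (j + 1) / w 0 j) =
      ((∏ j ∈ Finset.range n, ‖w 0 (j + 1) / w 0 j‖ : ℝ) : ℂ) := by
    have e : ∀ j ∈ Finset.range n, w 0 (j + 1) / w 0 j =
        (‖w 0 (j + 1) / w 0 j‖ : ℂ) * Complex.exp ((A 0 j : ℂ) * Complex.I) := fun j _ =>
      (Complex.norm_mul_exp_arg_mul_I _).symm
    rw [Finset.prod_congr rfl e, Finset.prod_mul_distrib, ← Complex.exp_sum, ← Finset.sum_mul,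
      ← Complex.ofReal_sum, hhalf]
    simp
  rw [hprod] at hprod2
  have hre := congrArg Complex.re hprod2
  rw [Complex.ofReal_re] at hre
  have : (0 : ℝ) ≤ ∏ j ∈ Finset.range n, ‖w 0 (j + 1) / w 0 j‖ :=
    Finset.prod_nonneg fun _ _ => norm_nonneg _
  rw [← hre] at this
  norm_num at this

end Pool.Agent.Lib.MP_c17089_co
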