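import Pool.Agent.Lib.MP_c17089_co.Local
import Pool.Agent.Lib.MP_c17089_co.Winding

set_option autoImplicit false

namespace Pool.Agent.Lib.MP_c17089_co

open scoped RealInnerProductSpace

/-- spherical coordinates -/
noncomputable def sph (φ θ : ℝ) : E3 :=
  !₂[Real.cos φ * Real.cos θ, Real.cos φ * Real.sin θ, Real.sin φ]

theorem inner_sph (φ θ φ' θ' : ℝ) : ⟪sph φ θ, sph φ' θ'⟫ =
    Real.cos φ * Real.cos φ' * Real.cos (θ - θ') + Real.sin φ * Real.sin φ' := by
  simp only [sph, PiLp.inner_apply, Fin.sum_univ_three, RCLike.inner_apply, conj_trivial]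
  simp [Real.cos_sub]
  ring

theorem norm_sph (φ θ : ℝ) : ‖sph φ θ‖ = 1 := by
  have : ‖sph φ θ‖ ^ 2 = 1 := by
    rw [← real_inner_self_eq_norm_sq, inner_sph]
    simp
    nlinarith [Real.sin_sq_add_cos_sq φ]
  nlinarith [norm_nonneg (sph φ θ)]

theorem norm_sub_sph_theta (φ θ θ' : ℝ) : ‖sph φ θ - sph φ θ'‖ ≤ |θ - θ'| := by
  apply abs_le_of_sq_le_sq' _ (abs_nonneg _) |>.2
  rw [norm_sub_sq_real, norm_sph, norm_sph, inner_sph, sq_abs]
  have h1 := Real.one_sub_sq_div_two_le_cos (x := θ - θ')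
  have h2 := Real.sin_sq_add_cos_sq φ
  have h3 : Real.cos (θ - θ') ≤ 1 := Real.cos_le_one _
  have h4 : Real.cos φ ^ 2 ≤ 1 := by nlinarith [sq_nonneg (Real.sin φ)]
  nlinarith [sq_nonneg (Real.cos φ)]

theorem norm_sub_sph_phi (φ φ' θ : ℝ) : ‖sph φ θ - sph φ' θ‖ ≤ |φ - φ'| := by
  apply abs_le_of_sq_le_sq' _ (abs_nonneg _) |>.2
  rw [norm_sub_sq_real, norm_sph, norm_sph, inner_sph, sq_abs]
  have h1 := Real.one_sub_sq_div_two_le_cos (x := φ - φ')
  rw [Real.cos_sub] at h1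
  simp only [sub_self, Real.cos_zero, mul_one]
  linarith

theorem norm_sub_sph (φ θ φ' θ' : ℝ) : ‖sph φ θ - sph φ' θ'‖ ≤ |φ - φ'| + |θ - θ'| := by
  have h := norm_sub_le_norm_sub_add_norm_sub (sph φ θ) (sph φ' θ) (sph φ' θ')
  have h1 := norm_sub_sph_phi φ φ' θ
  have h2 := norm_sub_sph_theta φ' θ θ'
  linarith

theorem sph_neg (θ : ℝ) : sph 0 (θ + Real.pi) = - sph 0 θ := by
  ext i
  fin_cases i <;> simp [sph, Real.cos_add_pi, Real.sin_add_pi]

theorem sph_per (φ θ : ℝ) : sph φ (θ + 2 * Real.pi) = sph φ θ := by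
  simp [sph]

theorem sph_pole (θ : ℝ) : sph (Real.pi / 2) θ = sph (Real.pi / 2) 0 := by
  simp [sph]

/-- the grid -/
noncomputable def grid (i j : ℕ) : E3 := sph (i * (Real.pi / 200)) (j * (Real.pi / 100))

theorem grid_per (i j : ℕ) : grid i (j + 2 * 100) = grid i j := by
  unfold grid
  rw [← sph_per _ (j * (Real.pi / 100))]
  congr 1
  push_cast
  ring

theorem grid_odd (j : ℕ) : grid 0 (j + 100) = - grid 0 j := by
  unfold grid
  rw [Nat.cast_zero, zero_mul, ← sph_neg]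
  congr 1
  push_cast
  ring

theorem grid_pole (j : ℕ) : grid 100 j = grid 100 0 := by
  unfold grid
  have : ((100 : ℕ) : ℝ) * (Real.pi / 200) = Real.pi / 2 := by push_cast; ring
  rw [this, sph_pole, sph_pole ((0 : ℕ) * _)]

theorem grid_near (i j i' j' : ℕ) (hi : |(i : ℝ) - i'| ≤ 1) (hj : |(j : ℝ) - j'| ≤ 1) :
    ‖grid i j - grid i' j'‖ ≤ 1 / 10 := by
  unfold grid
  refine (norm_sub_sph _ _ _ _).trans ?_
  rw [← sub_mul, ← sub_mul, abs_mul, abs_mul]
  have h1 : |Real.pi / 200| = Real.pi / 200 := abs_of_pos (by positivity)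
  have h2 : |Real.pi / 100| = Real.pi / 100 := abs_of_pos (by positivity)
  rw [h1, h2]
  have hpi := Real.pi_le_four
  have hpos := Real.pi_pos
  have e1 : |(i : ℝ) - i'| * (Real.pi / 200) ≤ 1 * (Real.pi / 200) := by gcongr
  have e2 : |(j : ℝ) - j'| * (Real.pi / 100) ≤ 1 * (Real.pi / 100) := by gcongr
  linarith

/-- symmetric set of grid points -/
def gridSet : Set E3 := {v | ∃ i ≤ 100, ∃ j < 200, v = grid i j ∨ v = - grid i j}

theorem gridSet_finite : gridSet.Finite := by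
  have h1 : ((fun p : ℕ × ℕ => grid p.1 p.2) '' (Set.Iic 100 ×ˢ Set.Iio 200)).Finite :=
    ((Set.finite_Iic 100).prod (Set.finite_Iio 200)).image _
  have h2 : ((fun p : ℕ × ℕ => - grid p.1 p.2) '' (Set.Iic 100 ×ˢ Set.Iio 200)).Finite :=
    ((Set.finite_Iic 100).prod (Set.finite_Iio 200)).image _
  refine (h1.union h2).subset ?_
  rintro v ⟨i, hi, j, hj, h | h⟩
  · left; exact ⟨(i, j), ⟨hi, hj⟩, h.symm⟩
  · right; exact ⟨(i, j), ⟨hi, hj⟩, h.symm⟩

theorem gridSet_unit {v : E3} (h : v ∈ gridSet) : ‖v‖ = 1 := by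
  obtain ⟨i, hi, j, hj, h | h⟩ := h
  · rw [h]; exact norm_sph _ _
  · rw [h, norm_neg]; exact norm_sph _ _

theorem gridSet_neg {v : E3} (h : v ∈ gridSet) : -v ∈ gridSet := by
  obtain ⟨i, hi, j, hj, h | h⟩ := h
  · exact ⟨i, hi, j, hj, Or.inr (by rw [h])⟩
  · exact ⟨i, hi, j, hj, Or.inl (by rw [h, neg_neg])⟩

theorem grid_mem {i j : ℕ} (hi : i ≤ 100) : grid i j ∈ gridSet := by
  have : ∀ k j, grid i (j + 200 * k) = grid i j := by
    intro k
    induction k with
    | zero => intro j; rfl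
    | succ k ih =>
      intro j
      have : j + 200 * (k + 1) = (j + 200 * k) + 2 * 100 := by ring
      rw [this, grid_per, ih]
  refine ⟨i, hi, j % 200, Nat.mod_lt _ (by norm_num), Or.inl ?_⟩
  conv_lhs => rw [← Nat.mod_add_div j 200]
  exact this _ _

/-- the finite point set has a finite extension with all auxiliary points -/
theorem exists_net : ∃ X : Set E3, X.Finite ∧ (∀ v ∈ X, ‖v‖ = 1) ∧ Net X gridSet := by
  have hfr : ∀ q : E3, ∃ e : E3 × E3, ‖q‖ = 1 → Frame q e.1 e.2 := by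
    intro q
    by_cases hq : ‖q‖ = 1
    · obtain ⟨e₁, e₂, F⟩ := exists_frame q hq
      exact ⟨(e₁, e₂), fun _ => F⟩
    · exact ⟨(0, 0), fun h => absurd h hq⟩
  choose e he using hfr
  refine ⟨gridSet ∪ (⋃ k : Fin 4, ((fun q => ptP q (e q).1 (e q).2 k) '' gridSet)) ∪
    (⋃ k : Fin 4, ((fun q => ptS q (e q).1 (e q).2 k) '' gridSet)) ∪
    (⋃ k : Fin 4, ((fun q => dir (e q).1 (e q).2 k) '' gridSet)), ?_, ?_, ?_⟩
  · refine ((gridSet_finite.union ?_).union ?_).union ?_
    · exact Set.finite_iUnion fun k => gridSet_finite.image _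
    · exact Set.finite_iUnion fun k => gridSet_finite.image _
    · exact Set.finite_iUnion fun k => gridSet_finite.image _
  · rintro v (((h | h) | h) | h)
    · exact gridSet_unit h
    · obtain ⟨k, q, hq, rfl⟩ := Set.mem_iUnion.mp h
      exact (he q (gridSet_unit hq)).normP k
    · obtain ⟨k, q, hq, rfl⟩ := Set.mem_iUnion.mp h
      exact (he q (gridSet_unit hq)).normS k
    · obtain ⟨k, q, hq, rfl⟩ := Set.mem_iUnion.mp h
      exact (he q (gridSet_unit hq)).normO k
  · refine ⟨?_, fun q hq => gridSet_unit hq, fun q hq => gridSet_neg hq, ?_⟩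
    · intro v hv; left; left; left; exact hv
    · intro q hq
      refine ⟨(e q).1, (e q).2, he q (gridSet_unit hq), ?_, ?_, ?_⟩
      · intro k; left; left; right; exact Set.mem_iUnion.mpr ⟨k, q, hq, rfl⟩
      · intro k; left; right; exact Set.mem_iUnion.mpr ⟨k, q, hq, rfl⟩
      · intro k; right; exact Set.mem_iUnion.mpr ⟨k, q, hq, rfl⟩

theorem no_realisation {X : Set E3} (N : Net X gridSet) (C : E3 → ℂ) (R : E3 → ℝ)
    (H : Realises X C R) : False := by
  have hNZ : ∀ a b c : E3, a ∈ gridSet → b ∈ gridSet → c ∈ gridSet → ‖b - a‖ ≤ 1 / 10 →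
      ‖c - a‖ ≤ 1 / 10 → NZ (C a - C (-a)) (C b - C (-b)) (C c - C (-c)) := by
    intro a b c ha hb hc hba hca α β γ h1 h2 h3 h4
    exact no_hub H N ha hb hc hba hca h1 h2 h3 h4
  refine winding (fun i j => C (grid i j) - C (- grid i j)) 100 100 (by norm_num) ?_ ?_ ?_ ?_ ?_
  · intro i j
    simp only [grid_per]
  · intro j
    simp only [grid_odd, neg_neg]
    ring
  · intro j
    show C (grid 100 j) - C (- grid 100 j) = C (grid 100 0) - C (- grid 100 0)
    rw [grid_pole j]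
  · intro i j hi
    refine hNZ _ _ _ (grid_mem (by omega)) (grid_mem (by omega)) (grid_mem (by omega)) ?_ ?_
    · apply grid_near <;> simp
    · apply grid_near <;> simp
  · intro i j hi
    refine hNZ _ _ _ (grid_mem (by omega)) (grid_mem (by omega)) (grid_mem (by omega)) ?_ ?_
    · apply grid_near <;> simp
    · apply grid_near <;> simp

end Pool.Agent.Lib.MP_c17089_co
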