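import Pool.Agent.Lib.MP_c17089_co.Planar

set_option autoImplicit false

namespace Pool.Agent.Lib.MP_c17089_co

open scoped RealInnerProductSpace

abbrev E3 := EuclideanSpace ℝ (Fin 3)

/-- `C`, `R` give centres and radii of planar disks realising the threshold graph on `X`:
two points are adjacent iff their inner product is at least `1/2`. -/
structure Realises (X : Set E3) (C : E3 → ℂ) (R : E3 → ℝ) : Prop where
  adj : ∀ u ∈ X, ∀ v ∈ X, 1 / 2 ≤ ⟪u, v⟫ → ‖C u - C v‖ ≤ R u + R v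
  non : ∀ u ∈ X, ∀ v ∈ X, ⟪u, v⟫ < 1 / 2 → R u + R v < ‖C u - C v‖

variable {X : Set E3} {C : E3 → ℂ} {R : E3 → ℝ}

/-- crossing lemma -/
theorem Realises.cross (H : Realises X C R) {u v u' v' : E3} (hu : u ∈ X) (hv : v ∈ X)
    (hu' : u' ∈ X) (hv' : v' ∈ X) (h1 : 1 / 2 ≤ ⟪u, v⟫) (h2 : 1 / 2 ≤ ⟪u', v'⟫)
    (h3 : ⟪u, u'⟫ < 1 / 2) (h4 : ⟪v, v'⟫ < 1 / 2) :
    ∀ z ∈ segment ℝ (C u) (C v), z ∉ segment ℝ (C u') (C v') := by
  intro z hz hz'
  have e1 := H.adj u hu v hv h1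
  have e2 := H.adj u' hu' v' hv' h2
  have e3 := H.non u hu u' hu' h3
  have e4 := H.non v hv v' hv' h4
  have s1 : ‖C u - z‖ + ‖z - C v‖ = ‖C u - C v‖ := by
    have := dist_add_dist_of_mem_segment hz
    simpa [dist_eq_norm] using this
  have s2 : ‖C u' - z‖ + ‖z - C v'‖ = ‖C u' - C v'‖ := by
    have := dist_add_dist_of_mem_segment hz'
    simpa [dist_eq_norm] using this
  have t1 : ‖C u - C u'‖ ≤ ‖C u - z‖ + ‖C u' - z‖ := by
    rw [norm_sub_rev (C u') z]
    exact norm_sub_le_norm_sub_add_norm_sub _ _ _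
  have t2 : ‖C v - C v'‖ ≤ ‖z - C v‖ + ‖z - C v'‖ := by
    rw [norm_sub_rev z (C v)]
    exact norm_sub_le_norm_sub_add_norm_sub _ _ _
  linarith

/-- a point of a closed triangle which is on no side is in the open triangle -/
theorem mem_tri_of_not_mem_sides {a b c g : ℂ} {α β γ : ℝ} (h1 : 0 ≤ α) (h2 : 0 ≤ β) (h3 : 0 ≤ γ)
    (h4 : α + β + γ = 1) (hg : g = α * a + β * b + γ * c) (hab : g ∉ segment ℝ a b)
    (hbc : g ∉ segment ℝ b c) (hca : g ∉ segment ℝ c a) : g ∈ Tri a b c := by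
  rcases h1.eq_or_lt with h | h1
  · exfalso; apply hbc
    refine mem_seg h2 h3 (by linarith) ?_
    rw [hg, ← h]; simp
  rcases h2.eq_or_lt with h | h2
  · exfalso; apply hca
    refine mem_seg h3 h1.le (by linarith) ?_
    rw [hg, ← h]; simp; ring
  rcases h3.eq_or_lt with h | h3
  · exfalso; apply hab
    refine mem_seg h1.le h2.le (by linarith) ?_
    rw [hg, ← h]; simp
  exact ⟨_, _, _, h1, h2, h3, h4, hg⟩

/-- if two triangles meet and no side of one meets a side of the other, a vertex of one of them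
is inside the other one. -/
theorem hub_planar (A B : Fin 3 → ℂ)
    (hAB : ∀ i j k l, ∀ v ∈ segment ℝ (A i) (A j), v ∉ segment ℝ (B k) (B l))
    {α β γ : ℝ} (h1 : 0 ≤ α) (h2 : 0 ≤ β) (h3 : 0 ≤ γ) (h4 : α + β + γ = 1)
    (h : (α * A 0 + β * A 1 + γ * A 2 : ℂ) = α * B 0 + β * B 1 + γ * B 2) :
    B 0 ∈ Tri (A 0) (A 1) (A 2) ∨ A 0 ∈ Tri (B 0) (B 1) (B 2) := by
  set f : ℂ := α * A 0 + β * A 1 + γ * A 2 with hf
  have hα : 0 < α := by
    rcases h1.eq_or_lt with h0 | h0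
    · exfalso
      refine hAB 1 2 1 2 f (mem_seg h2 h3 (by linarith) ?_) (mem_seg h2 h3 (by linarith) ?_)
      · rw [hf, ← h0]; simp
      · rw [h, ← h0]; simp
    · exact h0
  have hβ : 0 < β := by
    rcases h2.eq_or_lt with h0 | h0
    · exfalso
      refine hAB 0 2 0 2 f (mem_seg h1 h3 (by linarith) ?_) (mem_seg h1 h3 (by linarith) ?_)
      · rw [hf, ← h0]; simp
      · rw [h, ← h0]; simp
    · exact h0
  have hγ : 0 < γ := by
    rcases h3.eq_or_lt with h0 | h0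
    · exfalso
      refine hAB 0 1 0 1 f (mem_seg h1 h2 (by linarith) ?_) (mem_seg h1 h2 (by linarith) ?_)
      · rw [hf, ← h0]; simp
      · rw [h, ← h0]; simp
    · exact h0
  have hfA : f ∈ Tri (A 0) (A 1) (A 2) := ⟨_, _, _, hα, hβ, hγ, h4, hf⟩
  by_cases hmeet : ∃ g ∈ segment ℝ f (B 0), ∃ i j, g ∈ segment ℝ (A i) (A j)
  · right
    obtain ⟨g, hg, i, j, hgA⟩ := hmeet
    obtain ⟨s, t, hs, ht, hst, hg'⟩ := exists_of_mem_seg hg
    have hgB : g ∈ Tri (B 0) (B 1) (B 2) := by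
      refine mem_tri_of_not_mem_sides (α := s * α + t) (β := s * β) (γ := s * γ) (by positivity)
        (by positivity) (by positivity) ?_ ?_ (hAB i j 0 1 g hgA) (hAB i j 1 2 g hgA)
        (hAB i j 2 0 g hgA)
      · linear_combination s * h4 + hst
      · rw [hg', h]; push_cast; ring
    have hA : ∀ k l, ∀ v ∈ segment ℝ g (A i), v ∉ segment ℝ (B k) (B l) := by
      intro k l v hv
      refine hAB i j k l v ?_
      exact (convex_segment (A i) (A j)).segment_subset hgA (left_mem_segment ℝ _ _) hv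
    have hAi : A i ∈ Tri (B 0) (B 1) (B 2) := tri_of_seg hgB (hA 0 1) (hA 1 2) (hA 2 0)
    exact tri_of_seg hAi (hAB i 0 0 1) (hAB i 0 1 2) (hAB i 0 2 0)
  · left
    push Not at hmeet
    exact tri_of_seg hfA (fun v hv => hmeet v hv 0 1) (fun v hv => hmeet v hv 1 2)
      (fun v hv => hmeet v hv 2 0)

end Pool.Agent.Lib.MP_c17089_co
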