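import Pool.Agent.Lib.MP_c17089_co.Hub

set_option autoImplicit false

namespace Pool.Agent.Lib.MP_c17089_co

open scoped RealInnerProductSpace

variable {X : Set E3} {C : E3 → ℂ} {R : E3 → ℝ}

/-- the four directions -/
def dir (e₁ e₂ : E3) : Fin 4 → E3 := ![e₁, e₂, -e₁, -e₂]

/-- auxiliary points near the threshold circle, beyond it, and far away -/
noncomputable def ptP (q e₁ e₂ : E3) (k : Fin 4) : E3 := (3 / 5 : ℝ) • q + (4 / 5 : ℝ) • dir e₁ e₂ k
noncomputable def ptS (q e₁ e₂ : E3) (k : Fin 4) : E3 := (-(3 / 5) : ℝ) • q + (4 / 5 : ℝ) • dir e₁ e₂ k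

structure Frame (q e₁ e₂ : E3) : Prop where
  nq : ‖q‖ = 1
  n1 : ‖e₁‖ = 1
  n2 : ‖e₂‖ = 1
  q1 : ⟪q, e₁⟫ = 0
  q2 : ⟪q, e₂⟫ = 0
  o : ⟪e₁, e₂⟫ = 0

theorem exists_frame (q : E3) (hq : ‖q‖ = 1) : ∃ e₁ e₂, Frame q e₁ e₂ := by
  have hv : Orthonormal ℝ (Set.domRestrict {(0 : Fin 3)} (fun _ : Fin 3 => q)) := by
    constructor
    · intro i; exact hq
    · intro i j hij
      exact absurd (Subsingleton.elim i j) hij
  obtain ⟨b, hb⟩ := hv.exists_orthonormalBasis_extension_of_card_eq (by simp)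
  have h0 : b 0 = q := hb 0 (by simp)
  refine ⟨b 1, b 2, hq, b.orthonormal.1 1, b.orthonormal.1 2, ?_, ?_, ?_⟩
  · rw [← h0]; exact b.orthonormal.2 (by decide)
  · rw [← h0]; exact b.orthonormal.2 (by decide)
  · exact b.orthonormal.2 (by decide)

variable {q e₁ e₂ : E3}

theorem Frame.qq (F : Frame q e₁ e₂) : ⟪q, q⟫ = 1 := by
  rw [real_inner_self_eq_norm_sq, F.nq]; norm_num

theorem Frame.dirdir (F : Frame q e₁ e₂) (k : Fin 4) : ⟪dir e₁ e₂ k, dir e₁ e₂ k⟫ = 1 := by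
  have h1 : ⟪e₁, e₁⟫ = 1 := by rw [real_inner_self_eq_norm_sq, F.n1]; norm_num
  have h2 : ⟪e₂, e₂⟫ = 1 := by rw [real_inner_self_eq_norm_sq, F.n2]; norm_num
  fin_cases k <;> simp [dir, h1, h2, -inner_self_eq_norm_sq_to_K]

theorem Frame.qdir (F : Frame q e₁ e₂) (k : Fin 4) : ⟪q, dir e₁ e₂ k⟫ = 0 := by
  fin_cases k <;> simp [dir, F.q1, F.q2]

theorem Frame.dirdir' (F : Frame q e₁ e₂) {k l : Fin 4} (h : k ≠ l) :
    ⟪dir e₁ e₂ k, dir e₁ e₂ l⟫ ≤ 0 := by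
  have ho := F.o
  have ho' : ⟪e₂, e₁⟫ = 0 := by rw [real_inner_comm]; exact ho
  have h1 : ⟪e₁, e₁⟫ = 1 := by rw [real_inner_self_eq_norm_sq, F.n1]; norm_num
  have h2 : ⟪e₂, e₂⟫ = 1 := by rw [real_inner_self_eq_norm_sq, F.n2]; norm_num
  fin_cases k <;> fin_cases l <;>
    simp [dir, ho, ho', inner_neg_left, inner_neg_right] at h ⊢

theorem near_inner {v t : E3} (hv : ‖v‖ = 1) (ht : ‖t - q‖ ≤ 1 / 10) :
    ⟪v, q⟫ - 1 / 10 ≤ ⟪v, t⟫ ∧ ⟪v, t⟫ ≤ ⟪v, q⟫ + 1 / 10 := by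
  have h : |⟪v, t - q⟫| ≤ ‖v‖ * ‖t - q‖ := abs_real_inner_le_norm _ _
  rw [hv, one_mul, inner_sub_right, abs_le] at h
  constructor <;> linarith [h.1, h.2]

theorem Frame.normP (F : Frame q e₁ e₂) (k : Fin 4) : ‖ptP q e₁ e₂ k‖ = 1 := by
  have : ‖ptP q e₁ e₂ k‖ ^ 2 = 1 := by
    rw [← real_inner_self_eq_norm_sq]
    unfold ptP
    simp only [inner_add_left, inner_add_right, real_inner_smul_left, real_inner_smul_right]
    rw [real_inner_comm q (dir e₁ e₂ k), F.qq, F.qdir, F.dirdir]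
    norm_num
  nlinarith [norm_nonneg (ptP q e₁ e₂ k)]

theorem Frame.normS (F : Frame q e₁ e₂) (k : Fin 4) : ‖ptS q e₁ e₂ k‖ = 1 := by
  have : ‖ptS q e₁ e₂ k‖ ^ 2 = 1 := by
    rw [← real_inner_self_eq_norm_sq]
    unfold ptS
    simp only [inner_add_left, inner_add_right, real_inner_smul_left, real_inner_smul_right]
    rw [real_inner_comm q (dir e₁ e₂ k), F.qq, F.qdir, F.dirdir]
    norm_num
  nlinarith [norm_nonneg (ptS q e₁ e₂ k)]

theorem Frame.normO (F : Frame q e₁ e₂) (k : Fin 4) : ‖dir e₁ e₂ k‖ = 1 := by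
  have : ‖dir e₁ e₂ k‖ ^ 2 = 1 := by
    rw [← real_inner_self_eq_norm_sq, F.dirdir]
  nlinarith [norm_nonneg (dir e₁ e₂ k)]

/-- The local contradiction: no hub. -/
theorem local_contra (H : Realises X C R) (F : Frame q e₁ e₂) {y z : E3} (hq : q ∈ X) (hy : y ∈ X)
    (hz : z ∈ X) (hnq : -q ∈ X) (hP : ∀ k, ptP q e₁ e₂ k ∈ X) (hS : ∀ k, ptS q e₁ e₂ k ∈ X)
    (hO : ∀ k, dir e₁ e₂ k ∈ X) (ny : ‖y‖ = 1) (nz : ‖z‖ = 1) (hyq : ‖y - q‖ ≤ 1 / 10)
    (hzq : ‖z - q‖ ≤ 1 / 10) (hin : C (-q) ∈ Tri (C q) (C y) (C z)) : False := by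
  have hqd : ∀ k, ⟪dir e₁ e₂ k, q⟫ = 0 := fun k => by rw [real_inner_comm]; exact F.qdir k
  set A : Fin 3 → E3 := ![q, y, z] with hA
  have AX : ∀ i, A i ∈ X := by
    intro i; fin_cases i
    · exact hq
    · exact hy
    · exact hz
  have An : ∀ i, ‖A i‖ = 1 := by
    intro i; fin_cases i
    · exact F.nq
    · exact ny
    · exact nz
  have Aq : ∀ i, ‖A i - q‖ ≤ 1 / 10 := by
    intro i; fin_cases i
    · show ‖q - q‖ ≤ 1 / 10
      simp
    · exact hyq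
    · exact hzq
  have PA : ∀ k i, 1 / 2 ≤ ⟪ptP q e₁ e₂ k, A i⟫ := by
    intro k i
    have h := (near_inner (F.normP k) (Aq i)).1
    have : ⟪ptP q e₁ e₂ k, q⟫ = 3 / 5 := by
      unfold ptP
      rw [inner_add_left, real_inner_smul_left, real_inner_smul_left, F.qq, hqd]
      norm_num
    rw [this] at h
    linarith
  have SA : ∀ k i, ⟪ptS q e₁ e₂ k, A i⟫ < 1 / 2 := by
    intro k i
    have h := (near_inner (F.normS k) (Aq i)).2
    have : ⟪ptS q e₁ e₂ k, q⟫ = -(3 / 5) := by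
      unfold ptS
      rw [inner_add_left, real_inner_smul_left, real_inner_smul_left, F.qq, hqd]
      norm_num
    rw [this] at h
    linarith
  have OA : ∀ k i, ⟪dir e₁ e₂ k, A i⟫ < 1 / 2 := by
    intro k i
    have h := (near_inner (F.normO k) (Aq i)).2
    rw [hqd] at h
    linarith
  have qA : ∀ i, ⟪-q, A i⟫ < 1 / 2 := by
    intro i
    have h := (near_inner (v := -q) (by rw [norm_neg]; exact F.nq) (Aq i)).2
    simp only [inner_neg_left, F.qq] at h ⊢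
    linarith
  have AA : ∀ i j, 1 / 2 ≤ ⟪A i, A j⟫ := by
    intro i j
    have h1 := (near_inner (An i) (Aq j)).1
    have h2 := (near_inner F.nq (Aq i)).1
    rw [F.qq, real_inner_comm] at h2
    linarith
  have qS : ∀ k, 1 / 2 ≤ ⟪-q, ptS q e₁ e₂ k⟫ := by
    intro k
    unfold ptS
    rw [inner_neg_left, inner_add_right, real_inner_smul_right, real_inner_smul_right, F.qq, F.qdir]
    norm_num
  have SO : ∀ k, 1 / 2 ≤ ⟪ptS q e₁ e₂ k, dir e₁ e₂ k⟫ := by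
    intro k
    unfold ptS
    rw [inner_add_left, real_inner_smul_left, real_inner_smul_left, F.dirdir, F.qdir]
    norm_num
  have OP : ∀ k, 1 / 2 ≤ ⟪dir e₁ e₂ k, ptP q e₁ e₂ k⟫ := by
    intro k
    unfold ptP
    rw [inner_add_right, real_inner_smul_right, real_inner_smul_right, F.dirdir, hqd]
    norm_num
  have qP : ∀ k, ⟪-q, ptP q e₁ e₂ k⟫ < 1 / 2 := by
    intro k
    unfold ptP
    rw [inner_neg_left, inner_add_right, real_inner_smul_right, real_inner_smul_right, F.qq, F.qdir]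
    norm_num
  have SP : ∀ k l, k ≠ l → ⟪ptS q e₁ e₂ l, ptP q e₁ e₂ k⟫ < 1 / 2 := by
    intro k l hkl
    unfold ptP ptS
    simp only [inner_add_left, inner_add_right, real_inner_smul_left, real_inner_smul_right]
    rw [F.qq, F.qdir, hqd]
    have := F.dirdir' hkl.symm
    linarith
  have PP : ∀ k l, k ≠ l → ⟪ptP q e₁ e₂ l, ptP q e₁ e₂ k⟫ < 1 / 2 := by
    intro k l hkl
    unfold ptP
    simp only [inner_add_left, inner_add_right, real_inner_smul_left, real_inner_smul_right]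
    rw [F.qq, F.qdir, hqd]
    have := F.dirdir' hkl.symm
    linarith
  refine planar (fun i => C (A i)) (C (-q)) (fun k => C (ptP q e₁ e₂ k))
    (fun k => C (ptS q e₁ e₂ k)) (fun k => C (dir e₁ e₂ k)) hin ?_ ?_ ?_ ?_ ?_
  · intro k i j
    exact H.cross hnq (hS k) (AX i) (AX j) (qS k) (AA i j) (qA i) (SA k j)
  · intro k i j
    exact H.cross (hS k) (hO k) (AX i) (AX j) (SO k) (AA i j) (SA k i) (OA k j)
  · intro k l hkl i
    exact H.cross hnq (hS l) (hP k) (AX i) (qS l) (PA k i) (qP k) (SA l i)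
  · intro k l hkl i
    exact H.cross (hS l) (hO l) (hP k) (AX i) (SO l) (PA k i) (SP k l hkl) (OA l i)
  · intro k l hkl i v hv hv'
    rw [segment_symm] at hv'
    exact H.cross (hO l) (hP l) (AX i) (hP k) (OP l) (by rw [real_inner_comm]; exact PA k i)
      (OA l i) (PP k l hkl) v hv hv'

/-- `G` is symmetric and every point of `G` has its auxiliary points in `X`. -/
structure Net (X G : Set E3) : Prop where
  sub : G ⊆ X
  unit : ∀ q ∈ G, ‖q‖ = 1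
  neg : ∀ q ∈ G, -q ∈ G
  frame : ∀ q ∈ G, ∃ e₁ e₂, Frame q e₁ e₂ ∧ (∀ k, ptP q e₁ e₂ k ∈ X) ∧
    (∀ k, ptS q e₁ e₂ k ∈ X) ∧ (∀ k, dir e₁ e₂ k ∈ X)

theorem no_hub {G : Set E3} (H : Realises X C R) (N : Net X G) {a b c : E3} (ha : a ∈ G)
    (hb : b ∈ G) (hc : c ∈ G) (hba : ‖b - a‖ ≤ 1 / 10) (hca : ‖c - a‖ ≤ 1 / 10)
    {α β γ : ℝ} (h1 : 0 ≤ α) (h2 : 0 ≤ β) (h3 : 0 ≤ γ) (h4 : α + β + γ = 1) :
    (α * (C a - C (-a)) + β * (C b - C (-b)) + γ * (C c - C (-c)) : ℂ) ≠ 0 := by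
  intro h
  have main : ∀ a b c : E3, a ∈ G → b ∈ G → c ∈ G → ‖b - a‖ ≤ 1 / 10 → ‖c - a‖ ≤ 1 / 10 →
      C (-a) ∈ Tri (C a) (C b) (C c) → False := by
    intro a b c ha hb hc hba hca hin
    obtain ⟨e₁, e₂, F, hP, hS, hO⟩ := N.frame a ha
    exact local_contra H F (N.sub ha) (N.sub hb) (N.sub hc) (N.sub (N.neg a ha)) hP hS hO
      (N.unit b hb) (N.unit c hc) hba hca hin
  set A : Fin 3 → E3 := ![a, b, c] with hA
  have AG : ∀ i, A i ∈ G := by
    intro i; fin_cases i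
    · exact ha
    · exact hb
    · exact hc
  have Aa : ∀ i, ‖A i - a‖ ≤ 1 / 10 := by
    intro i; fin_cases i
    · show ‖a - a‖ ≤ 1 / 10
      simp
    · exact hba
    · exact hca
  have aa : ⟪a, a⟫ = 1 := by rw [real_inner_self_eq_norm_sq, N.unit a ha]; norm_num
  have AA : ∀ i j, 1 / 2 ≤ ⟪A i, A j⟫ := by
    intro i j
    have h1 := (near_inner (N.unit _ (AG i)) (Aa j)).1
    have h2 := (near_inner (N.unit a ha) (Aa i)).1
    rw [aa, real_inner_comm] at h2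
    linarith
  have hcross : ∀ i j k l, ∀ v ∈ segment ℝ (C (A i)) (C (A j)),
      v ∉ segment ℝ (C (-(A k))) (C (-(A l))) := by
    intro i j k l
    refine H.cross (N.sub (AG i)) (N.sub (AG j)) (N.sub (N.neg _ (AG k))) (N.sub (N.neg _ (AG l)))
      (AA i j) ?_ ?_ ?_
    · rw [inner_neg_neg]; exact AA k l
    · rw [inner_neg_right]; linarith [AA i k]
    · rw [inner_neg_right]; linarith [AA j l]
  rcases hub_planar (fun i => C (A i)) (fun i => C (-(A i))) hcross h1 h2 h3 h4 (by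
    show (α * C a + β * C b + γ * C c : ℂ) = α * C (-a) + β * C (-b) + γ * C (-c)
    linear_combination h) with h | h
  · exact main a b c ha hb hc hba hca h
  · refine main (-a) (-b) (-c) (N.neg a ha) (N.neg b hb) (N.neg c hc) ?_ ?_ ?_
    · rw [← neg_sub', norm_neg]; exact hba
    · rw [← neg_sub', norm_neg]; exact hca
    · rw [neg_neg]; exact h

end Pool.Agent.Lib.MP_c17089_co
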