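import Mathlib

set_option autoImplicit false

namespace Pool.Agent.Lib.MP_c17089_co

/-- strictly positive convex combinations of three points -/
def Tri (a b c : ℂ) : Set ℂ :=
  {w | ∃ α β γ : ℝ, 0 < α ∧ 0 < β ∧ 0 < γ ∧ α + β + γ = 1 ∧ w = α * a + β * b + γ * c}

theorem tri_rot {a b c w : ℂ} (h : w ∈ Tri a b c) : w ∈ Tri b c a := by
  obtain ⟨α, β, γ, h1, h2, h3, h4, rfl⟩ := h
  exact ⟨β, γ, α, h2, h3, h1, by linarith, by ring⟩

theorem tri_swap {a b c w : ℂ} (h : w ∈ Tri a b c) : w ∈ Tri b a c := by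
  obtain ⟨α, β, γ, h1, h2, h3, h4, rfl⟩ := h
  exact ⟨β, α, γ, h2, h1, h3, by linarith, by ring⟩

theorem tri_swap' {a b c w : ℂ} (h : w ∈ Tri a b c) : w ∈ Tri a c b := by
  obtain ⟨α, β, γ, h1, h2, h3, h4, rfl⟩ := h
  exact ⟨α, γ, β, h1, h3, h2, by linarith, by ring⟩

/-- orientation determinant -/
def dt (a b c : ℂ) : ℝ := (b.re - a.re) * (c.im - a.im) - (b.im - a.im) * (c.re - a.re)

theorem mem_seg {a b w : ℂ} {s t : ℝ} (hs : 0 ≤ s) (ht : 0 ≤ t) (hst : s + t = 1)
    (hw : w = s * a + t * b) : w ∈ segment ℝ a b :=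
  ⟨s, t, hs, ht, hst, by rw [hw]; simp⟩

theorem exists_of_mem_seg {a b w : ℂ} (h : w ∈ segment ℝ a b) :
    ∃ s t : ℝ, 0 ≤ s ∧ 0 ≤ t ∧ s + t = 1 ∧ w = s * a + t * b := by
  obtain ⟨s, t, hs, ht, hst, hw⟩ := h
  exact ⟨s, t, hs, ht, hst, by rw [← hw]; simp⟩

/-- barycentric coordinates -/
theorem bary {a b c : ℂ} (hD : dt a b c ≠ 0) (w : ℂ) :
    dt w b c / dt a b c + dt a w c / dt a b c + dt a b w / dt a b c = 1 ∧
    w = ((dt w b c / dt a b c : ℝ) : ℂ) * a + ((dt a w c / dt a b c : ℝ) : ℂ) * b +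
      ((dt a b w / dt a b c : ℝ) : ℂ) * c := by
  constructor
  · field_simp
    unfold dt
    ring
  · apply Complex.ext
    · simp only [Complex.add_re, Complex.mul_re, Complex.ofReal_re, Complex.ofReal_im]
      field_simp
      unfold dt
      ring
    · simp only [Complex.add_im, Complex.mul_im, Complex.ofReal_re, Complex.ofReal_im]
      field_simp
      unfold dt
      ring

/-- a convex combination of three collinear points lies on a side -/
theorem seg_of_dt_eq_zero {a b c : ℂ} (hD : dt a b c = 0) {α β γ : ℝ} (h1 : 0 ≤ α) (h2 : 0 ≤ β)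
    (h3 : 0 ≤ γ) (h4 : α + β + γ = 1) :
    (α * a + β * b + γ * c : ℂ) ∈ segment ℝ a b ∨ (α * a + β * b + γ * c : ℂ) ∈ segment ℝ b c ∨
      (α * a + β * b + γ * c : ℂ) ∈ segment ℝ c a := by
  have hcol : Collinear ℝ ({a, b, c} : Set ℂ) := by
    rw [collinear_iff_of_mem (p₀ := a) (by simp)]
    by_cases hab : b = a
    · refine ⟨c - a, ?_⟩
      intro p hp
      simp only [Set.mem_insert_iff, Set.mem_singleton_iff] at hp
      rcases hp with rfl | rfl | rfl
      · exact ⟨0, by simp⟩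
      · exact ⟨0, by simp [hab]⟩
      · exact ⟨1, by simp⟩
    · refine ⟨b - a, ?_⟩
      intro p hp
      simp only [Set.mem_insert_iff, Set.mem_singleton_iff] at hp
      rcases hp with rfl | rfl | rfl
      · exact ⟨0, by simp⟩
      · exact ⟨1, by simp⟩
      · unfold dt at hD
        by_cases hre : b.re - a.re = 0
        · have him : b.im - a.im ≠ 0 := by
            intro him
            apply hab
            apply Complex.ext <;> linarith
          refine ⟨(p.im - a.im) / (b.im - a.im), ?_⟩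
          have hp : p.re = a.re := by
            rw [hre] at hD
            have : (b.im - a.im) * (p.re - a.re) = 0 := by linarith
            rcases mul_eq_zero.mp this with h | h
            · exact absurd h him
            · linarith
          apply Complex.ext
          · simp only [vadd_eq_add, Complex.add_re, Complex.smul_re, Complex.sub_re, smul_eq_mul]
            rw [hre, hp]; ring
          · simp only [vadd_eq_add, Complex.add_im, Complex.smul_im, Complex.sub_im, smul_eq_mul]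
            field_simp
            ring
        · refine ⟨(p.re - a.re) / (b.re - a.re), ?_⟩
          apply Complex.ext
          · simp only [vadd_eq_add, Complex.add_re, Complex.smul_re, Complex.sub_re, smul_eq_mul]
            field_simp
            ring
          · simp only [vadd_eq_add, Complex.add_im, Complex.smul_im, Complex.sub_im, smul_eq_mul]
            field_simp
            linarith
  have key : ∀ x y z : ℂ, Wbtw ℝ x y z → ∀ r s t : ℝ, 0 ≤ r → 0 ≤ s → 0 ≤ t → r + s + t = 1 →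
      (r * x + s * y + t * z : ℂ) ∈ segment ℝ x z := by
    intro x y z hw r s t hr hs ht hsum
    have hy : y ∈ segment ℝ x z := by
      rw [← mem_segment_iff_wbtw] at hw
      exact hw
    obtain ⟨u, v, hu, hv, huv, rfl⟩ := exists_of_mem_seg hy
    refine mem_seg (s := r + s * u) (t := t + s * v) (by positivity) (by positivity) ?_ ?_
    · have : s * u + s * v = s := by rw [← mul_add, huv, mul_one]
      linarith
    · push_cast
      ring
  rcases hcol.wbtw_or_wbtw_or_wbtw with h | h | h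
  · right; right
    rw [segment_symm]
    exact key a b c h α β γ h1 h2 h3 h4
  · left
    rw [segment_symm]
    have := key b c a h β γ α h2 h3 h1 (by linarith)
    convert this using 1
    ring
  · right; left
    rw [segment_symm]
    have := key c a b h γ α β h3 h1 h2 (by linarith)
    convert this using 1
    ring

/-- (L1) a segment starting inside a triangle and missing its sides stays inside. -/
theorem tri_of_seg {a b c w w' : ℂ} (h : w ∈ Tri a b c)
    (hab : ∀ z ∈ segment ℝ w w', z ∉ segment ℝ a b) (hbc : ∀ z ∈ segment ℝ w w', z ∉ segment ℝ b c)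
    (hca : ∀ z ∈ segment ℝ w w', z ∉ segment ℝ c a) : w' ∈ Tri a b c := by
  have hD : dt a b c ≠ 0 := by
    intro hD
    obtain ⟨α, β, γ, h1, h2, h3, h4, hw⟩ := h
    have hmem : w ∈ segment ℝ w w' := left_mem_segment ℝ w w'
    rcases seg_of_dt_eq_zero hD h1.le h2.le h3.le h4 with h | h | h
    · exact hab w hmem (hw ▸ h)
    · exact hbc w hmem (hw ▸ h)
    · exact hca w hmem (hw ▸ h)
  obtain ⟨α, β, γ, h1, h2, h3, h4, hw⟩ := h
  obtain ⟨h4', hw'⟩ := bary hD w'
  set α' := dt w' b c / dt a b c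
  set β' := dt a w' c / dt a b c
  set γ' := dt a b w' / dt a b c
  by_contra hcon
  have hneg : min (min α' β') γ' ≤ 0 := by
    by_contra hlt
    push Not at hlt
    simp only [lt_min_iff] at hlt
    exact hcon ⟨α', β', γ', hlt.1.1, hlt.1.2, hlt.2, h4', hw'⟩
  have hcont : ContinuousOn (fun t : ℝ => min (min (α + t * (α' - α)) (β + t * (β' - β)))
      (γ + t * (γ' - γ))) (Set.Icc 0 1) := by fun_prop
  have hivt := intermediate_value_Icc' (zero_le_one' ℝ) hcont
  have hmem : (0 : ℝ) ∈ Set.Icc (min (min (α + 1 * (α' - α)) (β + 1 * (β' - β)))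
      (γ + 1 * (γ' - γ))) (min (min (α + 0 * (α' - α)) (β + 0 * (β' - β)))
      (γ + 0 * (γ' - γ))) := by
    constructor
    · have e1 : α + 1 * (α' - α) = α' := by ring
      have e2 : β + 1 * (β' - β) = β' := by ring
      have e3 : γ + 1 * (γ' - γ) = γ' := by ring
      rw [e1, e2, e3]
      exact hneg
    · simp only [zero_mul, add_zero, le_min_iff]
      exact ⟨⟨h1.le, h2.le⟩, h3.le⟩
  obtain ⟨t, ht, htz⟩ := hivt hmem
  simp only at htz
  set p := α + t * (α' - α) with hp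
  set q := β + t * (β' - β) with hq
  set r := γ + t * (γ' - γ) with hr
  have hsum : p + q + r = 1 := by
    rw [hp, hq, hr]
    linear_combination h4 + t * h4' - t * h4
  have hp0 : 0 ≤ p := by rw [← htz]; exact (min_le_left _ _).trans (min_le_left _ _)
  have hq0 : 0 ≤ q := by rw [← htz]; exact (min_le_left _ _).trans (min_le_right _ _)
  have hr0 : 0 ≤ r := by rw [← htz]; exact min_le_right _ _
  have hz : (p * a + q * b + r * c : ℂ) ∈ segment ℝ w w' := by
    refine mem_seg (s := 1 - t) (t := t) (by linarith [ht.2]) ht.1 (by ring) ?_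
    rw [hw, hw', hp, hq, hr]
    push_cast
    ring
  have hcase : p = 0 ∨ q = 0 ∨ r = 0 := by
    rcases min_choice (min p q) r with h | h
    · rcases min_choice p q with h' | h'
      · left; rw [← h', ← h]; exact htz
      · right; left; rw [← h', ← h]; exact htz
    · right; right; rw [← h]; exact htz
  rcases hcase with h | h | h
  · refine hbc _ hz (mem_seg hq0 hr0 (by linarith) ?_)
    rw [h]; simp
  · refine hca _ hz (mem_seg hr0 hp0 (by linarith) ?_)
    rw [h]; simp; ring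
  · refine hab _ hz (mem_seg hp0 hq0 (by linarith) ?_)
    rw [h]; simp

theorem tri_label_aux {x y z p w : ℂ} {α β γ r₁ r₂ r₃ : ℝ} (h2 : 0 < β) (h3 : 0 < γ)
    (h4 : α + β + γ = 1)
    (hw : w = α * x + β * y + γ * z) (hp : p = (r₁ * α : ℝ) * x + (r₂ * β : ℝ) * y + (r₃ * γ : ℝ) * z)
    (hsum : r₁ * α + r₂ * β + r₃ * γ = 1) (hr : 0 < r₁) (h21 : r₂ ≤ r₁) (h31 : r₃ ≤ r₁)
    (hpy : w ∉ segment ℝ p y) (hpz : w ∉ segment ℝ p z) : w ∈ Tri p y z := by
  have e2 : 0 ≤ β * (1 - r₂ / r₁) := by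
    have : r₂ / r₁ ≤ 1 := by rw [div_le_one hr]; exact h21
    have : 0 ≤ 1 - r₂ / r₁ := by linarith
    positivity
  have e3 : 0 ≤ γ * (1 - r₃ / r₁) := by
    have : r₃ / r₁ ≤ 1 := by rw [div_le_one hr]; exact h31
    have : 0 ≤ 1 - r₃ / r₁ := by linarith
    positivity
  have es : 1 / r₁ + β * (1 - r₂ / r₁) + γ * (1 - r₃ / r₁) = 1 := by
    field_simp
    linear_combination r₁ * h4 - hsum
  have hrc : (r₁ : ℂ) ≠ 0 := by exact_mod_cast hr.ne'
  have ew : w = ((1 / r₁ : ℝ) : ℂ) * p + ((β * (1 - r₂ / r₁) : ℝ) : ℂ) * y +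
      ((γ * (1 - r₃ / r₁) : ℝ) : ℂ) * z := by
    rw [hw, hp]
    push_cast
    field_simp
    ring
  have hpos : 0 < 1 / r₁ := by positivity
  rcases e2.eq_or_lt with h | h
  · exfalso
    apply hpz
    refine mem_seg hpos.le e3 (by rw [← h] at es; linarith) ?_
    rw [← h] at ew
    rw [ew]
    simp
  rcases e3.eq_or_lt with h' | h'
  · exfalso
    apply hpy
    refine mem_seg hpos.le e2 (by rw [← h'] at es; linarith) ?_
    rw [← h'] at ew
    rw [ew]
    simp
  exact ⟨_, _, _, hpos, h, h', es, ew⟩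

theorem dt_ne_zero {x y z w : ℂ} (hw : w ∈ Tri x y z) (hxy : w ∉ segment ℝ x y)
    (hyz : w ∉ segment ℝ y z) (hzx : w ∉ segment ℝ z x) : dt x y z ≠ 0 := by
  intro hD
  obtain ⟨α, β, γ, h1, h2, h3, h4, rfl⟩ := hw
  rcases seg_of_dt_eq_zero hD h1.le h2.le h3.le h4 with h | h | h
  · exact hxy h
  · exact hyz h
  · exact hzx h

/-- (L2) -/
theorem tri_label {x y z p w : ℂ} (hw : w ∈ Tri x y z) (hD : dt x y z ≠ 0)
    (hpx : w ∉ segment ℝ p x) (hpy : w ∉ segment ℝ p y) (hpz : w ∉ segment ℝ p z) :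
    w ∈ Tri p y z ∨ w ∈ Tri p z x ∨ w ∈ Tri p x y := by
  obtain ⟨α, β, γ, h1, h2, h3, h4, hw⟩ := hw
  obtain ⟨hs, hp⟩ := bary hD p
  obtain ⟨r₁, hr₁⟩ : ∃ r : ℝ, dt p y z / dt x y z = r * α := ⟨dt p y z / dt x y z / α, by field_simp⟩
  obtain ⟨r₂, hr₂⟩ : ∃ r : ℝ, dt x p z / dt x y z = r * β := ⟨dt x p z / dt x y z / β, by field_simp⟩
  obtain ⟨r₃, hr₃⟩ : ∃ r : ℝ, dt x y p / dt x y z = r * γ := ⟨dt x y p / dt x y z / γ, by field_simp⟩
  rw [hr₁, hr₂, hr₃] at hs hp
  have hmax : ∀ m : ℝ, r₁ ≤ m → r₂ ≤ m → r₃ ≤ m → 0 < m := by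
    intro m a b c
    by_contra hm
    push Not at hm
    have h1' : r₁ * α ≤ m * α := by gcongr
    have h2' : r₂ * β ≤ m * β := by gcongr
    have h3' : r₃ * γ ≤ m * γ := by gcongr
    have : m * α + m * β + m * γ = m := by linear_combination m * h4
    linarith
  rcases le_total r₂ r₁ with h21 | h21
  · rcases le_total r₃ r₁ with h31 | h31
    · left
      exact tri_label_aux h2 h3 h4 hw hp hs (hmax _ le_rfl h21 h31) h21 h31 hpy hpz
    · right; right
      exact tri_label_aux (x := z) (y := x) (z := y) (α := γ) (r₁ := r₃) (r₂ := r₁) (r₃ := r₂)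
        h1 h2 (by linarith) (by rw [hw]; ring) (by rw [hp]; ring) (by linarith)
        (hmax _ h31 (h21.trans h31) le_rfl) h31 (h21.trans h31) hpx hpy
  · rcases le_total r₃ r₂ with h32 | h32
    · right; left
      exact tri_label_aux (x := y) (y := z) (z := x) (α := β) (r₁ := r₂) (r₂ := r₃) (r₃ := r₁)
        h3 h1 (by linarith) (by rw [hw]; ring) (by rw [hp]; ring) (by linarith)
        (hmax _ h21 le_rfl h32) h32 h21 hpz hpx
    · right; right
      exact tri_label_aux (x := z) (y := x) (z := y) (α := γ) (r₁ := r₃) (r₂ := r₁) (r₃ := r₂)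
        h1 h2 (by linarith) (by rw [hw]; ring) (by rw [hp]; ring) (by linarith)
        (hmax _ (h21.trans h32) h32 le_rfl) (h21.trans h32) h32 hpx hpy

theorem dt_tri {p y z o : ℂ} (h : o ∈ Tri p y z) : ∃ l : ℝ, 0 < l ∧ l < 1 ∧ dt o y z = l * dt p y z := by
  obtain ⟨α, β, γ, h1, h2, h3, h4, rfl⟩ := h
  refine ⟨α, h1, by linarith, ?_⟩
  have : β = 1 - α - γ := by linarith
  subst this
  unfold dt
  simp
  ring

theorem dt_seg {a b w y z : ℂ} (h : w ∈ segment ℝ a b) :
    ∃ s t : ℝ, 0 ≤ s ∧ 0 ≤ t ∧ s + t = 1 ∧ dt w y z = s * dt a y z + t * dt b y z := by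
  obtain ⟨s, t, h1, h2, h3, rfl⟩ := exists_of_mem_seg h
  refine ⟨s, t, h1, h2, h3, ?_⟩
  have : s = 1 - t := by linarith
  subst this
  unfold dt
  simp
  ring

theorem tri_final_aux {x y z p p' o o' : ℂ} (hD : dt x y z ≠ 0) 
    (ho : o ∈ Tri x y z) (ho' : o' ∈ Tri x y z) (h1 : o' ∈ Tri p y z) (h2 : o ∈ Tri p' y z)
    (hy : ∀ v ∈ segment ℝ o' p', v ∉ segment ℝ p y) (hz : ∀ v ∈ segment ℝ o' p', v ∉ segment ℝ p z)
    (hle : dt p y z / dt x y z ≤ dt p' y z / dt x y z) : False := by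
  obtain ⟨l₁, hl₁, hl₁', e₁⟩ := dt_tri ho
  obtain ⟨l₂, hl₂, hl₂', e₂⟩ := dt_tri ho'
  obtain ⟨l₃, hl₃, hl₃', e₃⟩ := dt_tri h1
  obtain ⟨l₄, hl₄, hl₄', e₄⟩ := dt_tri h2
  have q' : 0 < dt p' y z / dt x y z := by
    have : dt p' y z / dt x y z = l₁ / l₄ := by
      field_simp
      linarith
    rw [this]; positivity
  have q : 0 < dt p y z / dt x y z := by
    have : dt p y z / dt x y z = l₂ / l₃ := by
      field_simp
      linarith
    rw [this]; positivity
  have hin : p' ∈ Tri p y z := by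
    refine tri_of_seg h1 hy ?_ ?_
    · intro v hv hyz
      obtain ⟨s, t, hs, ht, hst, e⟩ := dt_seg (y := y) (z := z) hv
      obtain ⟨s', t', hs', ht', hst', e'⟩ := dt_seg (y := y) (z := z) hyz
      have e0 : dt v y z = 0 := by
        rw [e']
        unfold dt
        ring
      rw [e0, e₂] at e
      have e5 : 0 = s * l₂ + t * (dt p' y z / dt x y z) := by
        have : (0 : ℝ) / dt x y z = (s * (l₂ * dt x y z) + t * dt p' y z) / dt x y z := by rw [e]
        rw [zero_div] at this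
        rw [this]
        field_simp
      rcases hs.eq_or_lt with h | h
      · have : t = 1 := by linarith
        rw [← h, this] at e5
        linarith
      · have : 0 < s * l₂ := by positivity
        have : 0 ≤ t * (dt p' y z / dt x y z) := by positivity
        linarith
    · intro v hv hzp
      rw [segment_symm] at hzp
      exact hz v hv hzp
  obtain ⟨l₅, hl₅, hl₅', e₅⟩ := dt_tri hin
  rw [e₅, mul_div_assoc] at hle
  nlinarith

theorem tri_final {x y z p p' o o' : ℂ} (hD : dt x y z ≠ 0)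
    (ho : o ∈ Tri x y z) (ho' : o' ∈ Tri x y z) (h1 : o' ∈ Tri p y z) (h2 : o ∈ Tri p' y z)
    (hy : ∀ v ∈ segment ℝ o' p', v ∉ segment ℝ p y) (hz : ∀ v ∈ segment ℝ o' p', v ∉ segment ℝ p z)
    (hy' : ∀ v ∈ segment ℝ o p, v ∉ segment ℝ p' y) (hz' : ∀ v ∈ segment ℝ o p, v ∉ segment ℝ p' z) :
    False := by
  rcases le_total (dt p y z / dt x y z) (dt p' y z / dt x y z) with h | h
  · exact tri_final_aux hD ho ho' h1 h2 hy hz h
  · exact tri_final_aux hD ho' ho h2 h1 hy' hz' h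

/-- The planar part of the argument. -/
theorem planar (A : Fin 3 → ℂ) (w : ℂ) (P S O : Fin 4 → ℂ)
    (h1 : w ∈ Tri (A 0) (A 1) (A 2))
    (h2 : ∀ k i j, ∀ v ∈ segment ℝ w (S k), v ∉ segment ℝ (A i) (A j))
    (h3 : ∀ k i j, ∀ v ∈ segment ℝ (S k) (O k), v ∉ segment ℝ (A i) (A j))
    (h4 : ∀ k l, k ≠ l → ∀ i, ∀ v ∈ segment ℝ w (S l), v ∉ segment ℝ (P k) (A i))
    (h5 : ∀ k l, k ≠ l → ∀ i, ∀ v ∈ segment ℝ (S l) (O l), v ∉ segment ℝ (P k) (A i))
    (h6 : ∀ k l, k ≠ l → ∀ i, ∀ v ∈ segment ℝ (O l) (P l), v ∉ segment ℝ (P k) (A i)) : False := by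
  have hw : ∀ i : Fin 3, w ∈ Tri (A i) (A (i + 1)) (A (i + 2)) := by
    intro i
    fin_cases i
    · exact h1
    · exact tri_rot h1
    · exact tri_rot (tri_rot h1)
  have hwA : ∀ i j, w ∉ segment ℝ (A i) (A j) := fun i j =>
    h2 0 i j w (left_mem_segment ℝ _ _)
  have hD : ∀ i : Fin 3, dt (A i) (A (i + 1)) (A (i + 2)) ≠ 0 := fun i =>
    dt_ne_zero (hw i) (hwA _ _) (hwA _ _) (hwA _ _)
  have hwP : ∀ k i, w ∉ segment ℝ (P k) (A i) := by
    intro k i
    exact h4 k (k + 1) (by fin_cases k <;> decide) i w (left_mem_segment ℝ _ _)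
  have hO : ∀ (i : Fin 3) k, O k ∈ Tri (A i) (A (i + 1)) (A (i + 2)) := by
    intro i k
    have hS : S k ∈ Tri (A i) (A (i + 1)) (A (i + 2)) :=
      tri_of_seg (hw i) (h2 k _ _) (h2 k _ _) (h2 k _ _)
    exact tri_of_seg hS (h3 k _ _) (h3 k _ _) (h3 k _ _)
  have hlab : ∀ k, ∃ i : Fin 3, w ∈ Tri (P k) (A (i + 1)) (A (i + 2)) := by
    intro k
    rcases tri_label h1 (hD 0) (hwP k 0) (hwP k 1) (hwP k 2) with h | h | h
    · exact ⟨0, h⟩
    · exact ⟨1, h⟩
    · exact ⟨2, h⟩
  choose L hL using hlab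
  obtain ⟨k, l, hkl, hLkl⟩ := Fintype.exists_ne_map_eq_of_card_lt L (by simp)
  have key : ∀ k l, k ≠ l → O l ∈ Tri (P k) (A (L k + 1)) (A (L k + 2)) := by
    intro k l hkl
    have hS : S l ∈ Tri (P k) (A (L k + 1)) (A (L k + 2)) := by
      refine tri_of_seg (hL k) (h4 k l hkl _) (h2 l _ _) ?_
      intro v hv hm
      rw [segment_symm] at hm
      exact h4 k l hkl _ v hv hm
    refine tri_of_seg hS (h5 k l hkl _) (h3 l _ _) ?_
    intro v hv hm
    rw [segment_symm] at hm
    exact h5 k l hkl _ v hv hm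
  have k1 := key k l hkl
  have k2 := key l k hkl.symm
  rw [← hLkl] at k2
  exact tri_final (hD (L k)) (hO (L k) k) (hO (L k) l) k1 k2
    (h6 k l hkl _) (h6 k l hkl _) (h6 l k hkl.symm _) (h6 l k hkl.symm _)

end Pool.Agent.Lib.MP_c17089_co
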